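import Mathlib
import Pool.Agent.Helper79.Complexity.ListEnc

/-!
Weighted graphs, matchings, fractional covers, stability, and the weighted min-EDGE-ADD problem.
-/

namespace Pool.Agent.Helper79.EdgeAdd

open Computability Pool.Agent.Helper79.Complexity

variable {V : Type*} [Fintype V]

/-- `M` is a matching of the graph `G`: a finite set of edges of `G` such that
no vertex lies on two different members of `M`. -/
def IsMatching (G : SimpleGraph V) (M : Finset (Sym2 V)) : Prop :=
  (∀ e ∈ M, e ∈ G.edgeSet) ∧ ∀ e ∈ M, ∀ f ∈ M, ∀ v, v ∈ e → v ∈ f → e = f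

/-- `y` is a fractional `c`-vertex cover of `G`. -/
def IsFracCover (G : SimpleGraph V) (c : Sym2 V → ℝ) (y : V → ℝ) : Prop :=
  (∀ v, 0 ≤ y v) ∧ ∀ u v, G.Adj u v → c s(u, v) ≤ y u + y v

/-- `ν(G, c)`: the maximum weight of a matching of `G`. -/
noncomputable def nu (G : SimpleGraph V) (c : Sym2 V → ℝ) : ℝ :=
  sSup {r | ∃ M : Finset (Sym2 V), IsMatching G M ∧ r = ∑ e ∈ M, c e}

/-- `τ_f(G, c)`: the minimum of `∑ v, y v` over all fractional `c`-vertex covers `y`. -/
noncomputable def tauF (G : SimpleGraph V) (c : Sym2 V → ℝ) : ℝ :=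
  sInf {r | ∃ y : V → ℝ, IsFracCover G c y ∧ r = ∑ v, y v}

/-- The weighted graph `(G, c)` is stable. -/
def Stable (G : SimpleGraph V) (c : Sym2 V → ℝ) : Prop := nu G c = tauF G c

/-- `F` is a set of non-edges of `G`, i.e. of pairs of distinct non-adjacent vertices. -/
def IsExt {V : Type*} (G : SimpleGraph V) (F : Finset (Sym2 V)) : Prop :=
  ∀ e ∈ F, ¬ e.IsDiag ∧ e ∉ G.edgeSet

/-- The weighted graph `(G, c)` can be made stable by adding at most `k` non-edges. -/
def CanStab (G : SimpleGraph V) (c : Sym2 V → ℝ) (k : ℕ) : Prop :=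
  ∃ F : Finset (Sym2 V), IsExt G F ∧ F.card ≤ k ∧
    Stable (G ⊔ SimpleGraph.fromEdgeSet (F : Set (Sym2 V))) c

/-- An instance of the decision version of weighted min-EDGE-ADD: a graph `G` on the vertices
`0, …, n - 1`, a nonnegative rational weight `c e` for every pair `e` of distinct vertices (this
is the weight `w e` if `e` is an edge of `G` and `w' e` if it is a non-edge; the values of `c`
on the diagonal are ignored), and a bound `k` on the number of added edges. -/
structure Inst where
  n : ℕ
  G : SimpleGraph (Fin n)
  c : Sym2 (Fin n) → ℚ≥0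
  k : ℕ

/-- The decision problem weighted min-EDGE-ADD: is there a set `F` of at most `k` non-edges of
`G` such that the weighted graph `(V, E ∪ F)` is stable? -/
def Inst.Yes (I : Inst) : Prop := CanStab I.G (fun e => (I.c e : ℝ)) I.k

open Classical in
/-- The row-by-row matrix of the instance: entry `(i, j)` tells whether `i` and `j` are adjacent,
and the weight of the pair. -/
noncomputable def Inst.matrix (I : Inst) : List (List (Bool × ℚ≥0)) :=
  (List.finRange I.n).map fun i => (List.finRange I.n).map fun j =>
    (decide (I.G.Adj i j), I.c s(i, j))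

/-- Encoding of an instance as a bit string: the matrix of the instance (rational numbers are
given by numerator and denominator in binary), followed by `k` in unary. -/
noncomputable def Inst.bits (I : Inst) : List Bool :=
  encList (encList fun p : Bool × ℚ≥0 => p.1 :: encRat p.2) I.matrix ++ List.replicate I.k true

theorem Inst.bits_injective : Function.Injective Inst.bits := by
  classical
  intro I J h
  have hentry : UniqRead (fun p : Bool × ℚ≥0 => p.1 :: encRat p.2) := by
    rintro ⟨a, r⟩ ⟨b, s⟩ u v h
    simp only [List.cons_append, List.cons.injEq] at h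
    obtain ⟨h1, h2⟩ := uniqRead_encRat _ _ _ _ h.2
    exact ⟨by rw [h.1, h1], h2⟩
  obtain ⟨h1, h2⟩ := hentry.encList.encList _ _ _ _ h
  have hk : I.k = J.k := by simpa using congrArg List.length h2
  have hn : I.n = J.n := by simpa [Inst.matrix] using congrArg List.length h1
  obtain ⟨n, G, c, k⟩ := I
  obtain ⟨n', G', c', k'⟩ := J
  simp only at hk hn
  subst hk hn
  have hij : ∀ i j, decide (G.Adj i j) = decide (G'.Adj i j) ∧ c s(i, j) = c' s(i, j) := by
    intro i j
    have h3 := (List.map_inj_left.1 h1) i (List.mem_finRange i)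
    have h4 := (List.map_inj_left.1 h3) j (List.mem_finRange j)
    simpa using h4
  have hG : G = G' := by
    ext i j
    exact decide_eq_decide.1 (hij i j).1
  have hc : c = c' := by
    funext e
    induction e with
    | h i j => exact (hij i j).2
  rw [hG, hc]

/-- The encoding of instances of weighted min-EDGE-ADD. -/
noncomputable def instEncoding : Encoding Inst Bool :=
  encodingOfInjective Inst.bits Inst.bits_injective

/-- The instances in which all edges have weight `1` and every non-edge has weight `ε` or `1`. -/
def unitInstances (ε : ℚ≥0) : Set Inst :=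
  {I | ∀ e : Sym2 (Fin I.n), (e ∈ I.G.edgeSet → I.c e = 1) ∧ (I.c e = ε ∨ I.c e = 1)}

end Pool.Agent.Helper79.EdgeAdd
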