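import Pool.Agent.Helper79.EdgeAdd.Defs

namespace Pool.Agent.Helper79.EdgeAdd

variable {V : Type*} [Fintype V]

open Classical in
/-- sum of `y` over the vertices covered by a matching -/
theorem sum_covered {G : SimpleGraph V} {M : Finset (Sym2 V)} (hM : IsMatching G M)
    (y : V → ℝ) :
    ∑ e ∈ M, ∑ v ∈ Finset.univ.filter (fun v => v ∈ e), y v
      = ∑ v ∈ Finset.univ.filter (fun v => ∃ e ∈ M, v ∈ e), y v := by
  rw [← Finset.sum_biUnion]
  · congr 1
    ext v
    simp
  · intro e he f hf hef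
    rw [Function.onFun, Finset.disjoint_left]
    intro v hv hv'
    simp only [Finset.mem_filter, Finset.mem_univ, true_and] at hv hv'
    exact hef (hM.2 e he f hf v hv hv')

open Classical in
theorem sum_pair {u v : V} (h : u ≠ v) (y : V → ℝ) :
    ∑ x ∈ Finset.univ.filter (fun x => x ∈ s(u, v)), y x = y u + y v := by
  have : Finset.univ.filter (fun x => x ∈ s(u, v)) = {u, v} := by
    ext x; simp
  rw [this, Finset.sum_pair h]

open Classical in
theorem edge_le {G : SimpleGraph V} {c : Sym2 V → ℝ} {y : V → ℝ} (hy : IsFracCover G c y)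
    {e : Sym2 V} (he : e ∈ G.edgeSet) :
    c e ≤ ∑ v ∈ Finset.univ.filter (fun v => v ∈ e), y v := by
  induction e with
  | h u v =>
    rw [SimpleGraph.mem_edgeSet] at he
    rw [sum_pair he.ne]
    exact hy.2 u v he

/-- weak duality -/
theorem weak_duality {G : SimpleGraph V} {c : Sym2 V → ℝ} {M : Finset (Sym2 V)}
    (hM : IsMatching G M) {y : V → ℝ} (hy : IsFracCover G c y) :
    ∑ e ∈ M, c e ≤ ∑ v, y v := by
  classical
  calc ∑ e ∈ M, c e ≤ ∑ e ∈ M, ∑ v ∈ Finset.univ.filter (fun v => v ∈ e), y v :=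
        Finset.sum_le_sum fun e he => edge_le hy (hM.1 e he)
    _ = ∑ v ∈ Finset.univ.filter (fun v => ∃ e ∈ M, v ∈ e), y v := sum_covered hM y
    _ ≤ ∑ v, y v := Finset.sum_le_sum_of_subset_of_nonneg (Finset.filter_subset _ _)
        fun v _ _ => hy.1 v

theorem isMatching_empty (G : SimpleGraph V) : IsMatching G ∅ := by
  constructor <;> simp

theorem nu_attained (G : SimpleGraph V) (c : Sym2 V → ℝ) :
    ∃ M, IsMatching G M ∧ nu G c = ∑ e ∈ M, c e := by
  classical
  have hfin : ({r | ∃ M : Finset (Sym2 V), IsMatching G M ∧ r = ∑ e ∈ M, c e}).Finite := by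
    apply Set.Finite.subset (Set.finite_range (fun M : Finset (Sym2 V) => ∑ e ∈ M, c e))
    rintro r ⟨M, -, rfl⟩
    exact ⟨M, rfl⟩
  have hne : ({r | ∃ M : Finset (Sym2 V), IsMatching G M ∧ r = ∑ e ∈ M, c e}).Nonempty :=
    ⟨_, ∅, isMatching_empty G, rfl⟩
  have := hne.csSup_mem hfin
  obtain ⟨M, hM, h⟩ := this
  exact ⟨M, hM, h⟩

theorem exists_cover (G : SimpleGraph V) (c : Sym2 V → ℝ) : ∃ y, IsFracCover G c y := by
  refine ⟨fun u => ∑ v, |c s(u, v)|, fun v => Finset.sum_nonneg fun _ _ => abs_nonneg _, ?_⟩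
  intro u v _
  have h1 : |c s(u, v)| ≤ ∑ v, |c s(u, v)| :=
    Finset.single_le_sum (f := fun v => |c s(u, v)|) (fun _ _ => abs_nonneg _) (Finset.mem_univ v)
  have h2 : 0 ≤ ∑ x, |c s(v, x)| := Finset.sum_nonneg fun _ _ => abs_nonneg _
  have h3 := le_abs_self (c s(u, v))
  linarith

theorem tauF_attained (G : SimpleGraph V) (c : Sym2 V → ℝ) :
    ∃ y, IsFracCover G c y ∧ tauF G c = ∑ v, y v := by
  obtain ⟨y0, hy0⟩ := exists_cover G c
  set B : ℝ := ∑ v, y0 v with hB
  -- the compact set of covers with entries at most `B`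
  let K : Set (V → ℝ) := {y | IsFracCover G c y} ∩ Set.Icc 0 (fun _ => B)
  have hclosed : IsClosed {y : V → ℝ | IsFracCover G c y} := by
    have : {y : V → ℝ | IsFracCover G c y} =
        (⋂ v, {y : V → ℝ | 0 ≤ y v}) ∩
          ⋂ u, ⋂ v, ⋂ (_ : G.Adj u v), {y : V → ℝ | c s(u, v) ≤ y u + y v} := by
      ext y
      simp [IsFracCover]
    rw [this]
    apply IsClosed.inter
    · exact isClosed_iInter fun v => isClosed_le continuous_const (continuous_apply v)
    · exact isClosed_iInter fun u => isClosed_iInter fun v => isClosed_iInter fun _ =>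
        isClosed_le continuous_const ((continuous_apply u).add (continuous_apply v))
  have hK : IsCompact K := (isCompact_Icc).inter_left hclosed
  have hy0K : y0 ∈ K := by
    refine ⟨hy0, ?_, ?_⟩
    · intro v; exact hy0.1 v
    · intro v
      exact Finset.single_le_sum (f := y0) (fun v _ => hy0.1 v) (Finset.mem_univ v)
  have hcont : Continuous fun y : V → ℝ => ∑ v, y v := by
    exact continuous_finsetSum _ fun v _ => continuous_apply v
  obtain ⟨y, hyK, hmin⟩ := hK.exists_isMinOn ⟨y0, hy0K⟩ hcont.continuousOn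
  refine ⟨y, hyK.1, ?_⟩
  have hlow : ∀ z, IsFracCover G c z → ∑ v, y v ≤ ∑ v, z v := by
    intro z hz
    by_cases hzK : z ∈ K
    · exact hmin hzK
    · have : ∃ v, B < z v := by
        by_contra hcon
        push Not at hcon
        exact hzK ⟨hz, fun v => hz.1 v, hcon⟩
      obtain ⟨v, hv⟩ := this
      have h1 : z v ≤ ∑ v, z v :=
        Finset.single_le_sum (f := z) (fun v _ => hz.1 v) (Finset.mem_univ v)
      have h2 : ∑ v, y v ≤ ∑ v, y0 v := hmin hy0K
      linarith
  apply le_antisymm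
  · apply csInf_le
    · refine ⟨∑ v, y v, ?_⟩
      rintro r ⟨z, hz, rfl⟩
      exact hlow z hz
    · exact ⟨y, hyK.1, rfl⟩
  · apply le_csInf
    · exact ⟨_, y, hyK.1, rfl⟩
    · rintro r ⟨z, hz, rfl⟩
      exact hlow z hz

theorem stable_iff (G : SimpleGraph V) (c : Sym2 V → ℝ) :
    Stable G c ↔ ∃ M, IsMatching G M ∧ ∃ y, IsFracCover G c y ∧ ∑ e ∈ M, c e = ∑ v, y v := by
  constructor
  · intro h
    obtain ⟨M, hM, h1⟩ := nu_attained G c
    obtain ⟨y, hy, h2⟩ := tauF_attained G c
    exact ⟨M, hM, y, hy, by rw [← h1, ← h2]; exact h⟩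
  · rintro ⟨M, hM, y, hy, h⟩
    obtain ⟨M', hM', h1⟩ := nu_attained G c
    obtain ⟨y', hy', h2⟩ := tauF_attained G c
    unfold Stable
    apply le_antisymm
    · rw [h1, h2]; exact weak_duality hM' hy'
    · have h3 : tauF G c ≤ ∑ v, y v := by
        apply csInf_le
        · refine ⟨∑ e ∈ M, c e, ?_⟩
          rintro r ⟨z, hz, rfl⟩
          exact weak_duality hM hz
        · exact ⟨y, hy, rfl⟩
      have h4 : ∑ e ∈ M, c e ≤ nu G c := by
        apply le_csSup
        · refine ⟨∑ v, y v, ?_⟩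
          rintro r ⟨N, hN, rfl⟩
          exact weak_duality hN hy
        · exact ⟨M, hM, rfl⟩
      linarith

open Classical in
/-- complementary slackness -/
theorem slack {G : SimpleGraph V} {c : Sym2 V → ℝ} {M : Finset (Sym2 V)}
    (hM : IsMatching G M) {y : V → ℝ} (hy : IsFracCover G c y)
    (h : ∑ e ∈ M, c e = ∑ v, y v) :
    (∀ u v, s(u, v) ∈ M → y u + y v = c s(u, v)) ∧ ∀ v, (∀ u, s(v, u) ∉ M) → y v = 0 := by
  have e1 : ∑ e ∈ M, c e ≤ ∑ e ∈ M, ∑ v ∈ Finset.univ.filter (fun v => v ∈ e), y v :=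
        Finset.sum_le_sum fun e he => edge_le hy (hM.1 e he)
  have e2 := sum_covered hM y
  have e3 : ∑ v ∈ Finset.univ.filter (fun v => ∃ e ∈ M, v ∈ e), y v ≤ ∑ v, y v :=
    Finset.sum_le_sum_of_subset_of_nonneg (Finset.filter_subset _ _) fun v _ _ => hy.1 v
  constructor
  · intro u v huv
    have hadj : G.Adj u v := by
      have := hM.1 _ huv
      rwa [SimpleGraph.mem_edgeSet] at this
    have := (Finset.sum_eq_sum_iff_of_le (fun e he => edge_le hy (hM.1 e he))).1
      (by linarith : ∑ e ∈ M, c e = ∑ e ∈ M, ∑ v ∈ Finset.univ.filter (fun v => v ∈ e), y v)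
      _ huv
    rw [sum_pair hadj.ne] at this
    exact this.symm
  · intro v hv
    by_contra hne
    have hpos : 0 < y v := lt_of_le_of_ne (hy.1 v) (Ne.symm hne)
    have hlt : ∑ v ∈ Finset.univ.filter (fun v => ∃ e ∈ M, v ∈ e), y v < ∑ v, y v := by
      apply Finset.sum_lt_sum_of_subset (Finset.filter_subset _ _) (Finset.mem_univ v) _ hpos
      · intro j _ _; exact hy.1 j
      · simp only [Finset.mem_filter, Finset.mem_univ, true_and, not_exists, not_and]
        intro e he hve
        obtain ⟨u, rfl⟩ := hve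
        exact hv u he
    linarith

open Classical in
/-- constructing an optimal matching from an involution -/
theorem exists_matching_of_involution (G : SimpleGraph V) (c : Sym2 V → ℝ) (y : V → ℝ)
    (p : V → V) (hp : ∀ v, p (p v) = v)
    (h1 : ∀ v, p v ≠ v → G.Adj v (p v) ∧ y v + y (p v) = c s(v, p v))
    (h2 : ∀ v, p v = v → y v = 0) :
    ∃ M, IsMatching G M ∧ ∑ e ∈ M, c e = ∑ v, y v := by
  let M : Finset (Sym2 V) := (Finset.univ.filter (fun v => p v ≠ v)).image (fun v => s(v, p v))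
  have hmem : ∀ e, e ∈ M ↔ ∃ v, p v ≠ v ∧ s(v, p v) = e := by
    intro e
    simp [M]
  have hM : IsMatching G M := by
    constructor
    · intro e he
      obtain ⟨v, hv, rfl⟩ := (hmem e).1 he
      rw [SimpleGraph.mem_edgeSet]
      exact (h1 v hv).1
    · have key : ∀ u v, p u ≠ u → v ∈ s(u, p u) → s(u, p u) = s(v, p v) := by
        intro u v _ hv
        rw [Sym2.mem_iff] at hv
        rcases hv with rfl | rfl
        · rfl
        · rw [hp, Sym2.eq_swap]
      intro e he f hf v hve hvf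
      obtain ⟨a, ha, rfl⟩ := (hmem e).1 he
      obtain ⟨b, hb, rfl⟩ := (hmem f).1 hf
      rw [key a v ha hve, key b v hb hvf]
  refine ⟨M, hM, ?_⟩
  have e2 := sum_covered hM y
  have e1 : ∑ e ∈ M, c e = ∑ e ∈ M, ∑ v ∈ Finset.univ.filter (fun v => v ∈ e), y v := by
    apply Finset.sum_congr rfl
    intro e he
    obtain ⟨v, hv, rfl⟩ := (hmem e).1 he
    rw [sum_pair (Ne.symm hv), (h1 v hv).2]
  rw [e1, e2]
  apply Finset.sum_subset (Finset.filter_subset _ _)
  intro v _ hv
  apply h2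
  by_contra hne
  apply hv
  simp only [Finset.mem_filter, Finset.mem_univ, true_and]
  exact ⟨s(v, p v), (hmem _).2 ⟨v, hne, rfl⟩, by simp⟩

end Pool.Agent.Helper79.EdgeAdd
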