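import Pool.Agent.Helper79.EdgeAdd.Duality

namespace Pool.Agent.Helper79.EdgeAdd

/-- the kinds of vertices of the gadget graph -/
inductive Kd | t0 | t1 | t2 | x | z | zz | s | ss
  deriving DecidableEq, Fintype

variable {E S : Type*}

/-- the (oriented) edges of the gadget graph -/
def gRel (r : E → S → Prop) (e0 : E) (s0 : S) : (Kd × E × S) → (Kd × E × S) → Prop
  | (.t0, e, a), (.t1, e', a') => e = e' ∧ a = s0 ∧ a' = s0
  | (.t0, e, a), (.t2, e', a') => e = e' ∧ a = s0 ∧ a' = s0
  | (.t1, e, a), (.t2, e', a') => e = e' ∧ a = s0 ∧ a' = s0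
  | (.t0, e, a), (.x, e', a') => e = e' ∧ a = s0 ∧ r e a'
  | (.x, e, a), (.z, e', a') => e = e' ∧ a = a'
  | (.x, _, a), (.s, e', a') => e' = e0 ∧ a = a'
  | _, _ => False

/-- the (oriented) available non-edges of the gadget graph -/
def aRel (e0 : E) : (Kd × E × S) → (Kd × E × S) → Prop
  | (.z, e, a), (.zz, e', a') => e = e' ∧ a = a'
  | (.s, e, a), (.ss, e', a') => e = e0 ∧ e' = e0 ∧ a = a'
  | _, _ => False

/-- the gadget graph -/
def gG (r : E → S → Prop) (e0 : E) (s0 : S) : SimpleGraph (Kd × E × S) :=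
  SimpleGraph.fromRel (gRel r e0 s0)

/-- the available pairs -/
def aG (e0 : E) : SimpleGraph (Kd × E × S) := SimpleGraph.fromRel (aRel e0)

variable {r : E → S → Prop} {e0 : E} {s0 : S}

theorem gG_adj (u v : Kd × E × S) :
    (gG r e0 s0).Adj u v ↔ u ≠ v ∧ (gRel r e0 s0 u v ∨ gRel r e0 s0 v u) := Iff.rfl

theorem aG_adj (u v : Kd × E × S) :
    (aG e0).Adj u v ↔ u ≠ v ∧ (aRel e0 u v ∨ aRel e0 v u) := Iff.rfl

theorem nb_t0 {e : E} {v : Kd × E × S} (h : (gG r e0 s0).Adj (.t0, e, s0) v ∨
    (aG e0).Adj (.t0, e, s0) v) :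
    v = (.t1, e, s0) ∨ v = (.t2, e, s0) ∨ ∃ a, r e a ∧ v = (.x, e, a) := by
  obtain ⟨k, e', a'⟩ := v
  rw [gG_adj, aG_adj] at h
  cases k <;> simp [gRel, aRel] at h ⊢
  · obtain ⟨rfl, rfl⟩ := h; simp
  · obtain ⟨rfl, rfl⟩ := h; simp
  · obtain ⟨rfl, h⟩ := h; exact ⟨h, rfl⟩

theorem nb_t1 {e : E} {v : Kd × E × S} (h : (gG r e0 s0).Adj (.t1, e, s0) v ∨
    (aG e0).Adj (.t1, e, s0) v) :
    v = (.t0, e, s0) ∨ v = (.t2, e, s0) := by
  obtain ⟨k, e', a'⟩ := v
  rw [gG_adj, aG_adj] at h
  cases k <;> simp [gRel, aRel] at h ⊢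
  · obtain ⟨rfl, rfl⟩ := h; simp
  · obtain ⟨rfl, rfl⟩ := h; simp

theorem nb_t2 {e : E} {v : Kd × E × S} (h : (gG r e0 s0).Adj (.t2, e, s0) v ∨
    (aG e0).Adj (.t2, e, s0) v) :
    v = (.t0, e, s0) ∨ v = (.t1, e, s0) := by
  obtain ⟨k, e', a'⟩ := v
  rw [gG_adj, aG_adj] at h
  cases k <;> simp [gRel, aRel] at h ⊢
  · obtain ⟨rfl, rfl⟩ := h; simp
  · obtain ⟨rfl, rfl⟩ := h; simp

theorem nb_z {e : E} {a : S} {v : Kd × E × S} (h : (gG r e0 s0).Adj (.z, e, a) v ∨
    (aG e0).Adj (.z, e, a) v) :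
    v = (.x, e, a) ∨ v = (.zz, e, a) := by
  obtain ⟨k, e', a'⟩ := v
  rw [gG_adj, aG_adj] at h
  cases k <;> simp [gRel, aRel] at h ⊢
  · exact h
  · obtain ⟨rfl, rfl⟩ := h; simp

theorem nb_s {a : S} {v : Kd × E × S} (h : (gG r e0 s0).Adj (.s, e0, a) v ∨
    (aG e0).Adj (.s, e0, a) v) :
    (∃ e', v = (.x, e', a)) ∨ v = (.ss, e0, a) := by
  obtain ⟨k, e', a'⟩ := v
  rw [gG_adj, aG_adj] at h
  cases k <;> simp [gRel, aRel] at h ⊢
  · exact h
  · obtain ⟨rfl, rfl⟩ := h; simp

theorem adj_t01 (e : E) : (gG r e0 s0).Adj (.t0, e, s0) (.t1, e, s0) := by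
  simp [gG_adj, gRel]
theorem adj_t02 (e : E) : (gG r e0 s0).Adj (.t0, e, s0) (.t2, e, s0) := by
  simp [gG_adj, gRel]
theorem adj_t12 (e : E) : (gG r e0 s0).Adj (.t1, e, s0) (.t2, e, s0) := by
  simp [gG_adj, gRel]
theorem adj_xz (e : E) (a : S) : (gG r e0 s0).Adj (.x, e, a) (.z, e, a) := by
  simp [gG_adj, gRel]
theorem adj_xs (e : E) (a : S) : (gG r e0 s0).Adj (.x, e, a) (.s, e0, a) := by
  simp [gG_adj, gRel]
theorem adj_tx {e : E} {a : S} (h : r e a) : (gG r e0 s0).Adj (.t0, e, s0) (.x, e, a) := by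
  simp [gG_adj, gRel, h]

theorem forward [Fintype E] [Fintype S] {c : Sym2 (Kd × E × S) → ℝ} 
    (hc1 : ∀ u v, (gG r e0 s0).Adj u v → c s(u, v) = 1)
    (hc2 : ∀ u v, (aG e0).Adj u v → c s(u, v) = 1)
    (hc3 : ∀ u v, ¬ (gG r e0 s0).Adj u v → ¬ (aG e0).Adj u v → c s(u, v) < 1 / 2)
    {k : ℕ} (h : CanStab (gG r e0 s0) c (Fintype.card E + k)) :
    ∃ C : Finset S, C.card ≤ k ∧ ∀ e, ∃ a ∈ C, r e a := by
  classical
  obtain ⟨F, hF, hcard, hst⟩ := h
  rw [stable_iff] at hst
  obtain ⟨M, hM, y, hy, heq⟩ := hst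
  obtain ⟨sl1, sl2⟩ := slack hM hy heq
  set G := gG r e0 s0 with hG
  have Psymm : ∀ {u v}, s(u, v) ∈ M → s(v, u) ∈ M := by
    intro u v h; rwa [Sym2.eq_swap]
  have Pfun : ∀ {u v w}, s(u, v) ∈ M → s(u, w) ∈ M → v = w := by
    intro u v w h1 h2
    have := hM.2 _ h1 _ h2 u (by simp) (by simp)
    exact Sym2.congr_right.1 this
  have big : ∀ u, 1 / 2 ≤ y u → ∃ v, s(u, v) ∈ M ∧
      (G.Adj u v ∨ ((aG e0).Adj u v ∧ s(u, v) ∈ F)) ∧ y u + y v = 1 := by
    intro u hu
    have hne : ∃ v, s(u, v) ∈ M := by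
      by_contra hcon
      push Not at hcon
      have := sl2 u hcon
      linarith
    obtain ⟨v, hv⟩ := hne
    have hs := sl1 u v hv
    have hadj := hM.1 _ hv
    rw [SimpleGraph.mem_edgeSet, SimpleGraph.sup_adj, SimpleGraph.fromEdgeSet_adj] at hadj
    have hyv := hy.1 v
    by_cases hGa : G.Adj u v
    · exact ⟨v, hv, Or.inl hGa, by rw [hs, hc1 u v hGa]⟩
    · have hFm : s(u, v) ∈ F := by
        rcases hadj with h | h
        · exact absurd h hGa
        · exact_mod_cast h.1
      by_cases hav : (aG e0).Adj u v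
      · exact ⟨v, hv, Or.inr ⟨hav, hFm⟩, by rw [hs, hc2 u v hav]⟩
      · have := hc3 u v hGa hav
        linarith
  have covG : ∀ u v, G.Adj u v → 1 ≤ y u + y v := by
    intro u v huv
    have := hy.2 u v (by rw [SimpleGraph.sup_adj]; exact Or.inl huv)
    rwa [hc1 u v huv] at this
  -- the triangle vertex `t0` is matched to some `x`
  have tri : ∀ e, ∃ a, r e a ∧ s((Kd.t0, e, s0), (Kd.x, e, a)) ∈ M ∧ y (Kd.x, e, a) ≤ 1 / 2 := by
    intro e
    have h01 := covG _ _ (adj_t01 (r := r) (e0 := e0) (s0 := s0) e)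
    have h02 := covG _ _ (adj_t02 (r := r) (e0 := e0) (s0 := s0) e)
    have h12 := covG _ _ (adj_t12 (r := r) (e0 := e0) (s0 := s0) e)
    have weak : ∀ {u v : Kd × E × S},
      (G.Adj u v ∨ ((aG e0).Adj u v ∧ s(u, v) ∈ F)) → (G.Adj u v ∨ (aG e0).Adj u v) :=
      fun h => h.imp id And.left
    by_cases ht0 : 1 / 2 ≤ y (Kd.t0, e, s0)
    · obtain ⟨v, hv, hadj, hsum⟩ := big _ ht0
      rcases nb_t0 (weak hadj) with rfl | rfl | ⟨a, ha, rfl⟩
      · -- t0 - t1 matched, then t2 is not matched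
        exfalso
        have ht2 : 1 / 2 ≤ y (Kd.t2, e, s0) := by linarith
        obtain ⟨w, hw, hadj', hsum'⟩ := big _ ht2
        rcases nb_t2 (weak hadj') with rfl | rfl
        · have := Pfun hv (Psymm hw)
          simp at this
        · have := Pfun (Psymm hv) (Psymm hw)
          simp at this
      · exfalso
        have ht1 : 1 / 2 ≤ y (Kd.t1, e, s0) := by linarith
        obtain ⟨w, hw, hadj', hsum'⟩ := big _ ht1
        rcases nb_t1 (weak hadj') with rfl | rfl
        · have := Pfun hv (Psymm hw)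
          simp at this
        · have := Pfun (Psymm hv) (Psymm hw)
          simp at this
      · exact ⟨a, ha, hv, by linarith⟩
    · exfalso
      have ht1 : 1 / 2 ≤ y (Kd.t1, e, s0) := by linarith
      have ht2 : 1 / 2 ≤ y (Kd.t2, e, s0) := by linarith
      obtain ⟨v, hv, hadj, hsum⟩ := big _ ht1
      obtain ⟨w, hw, hadj', hsum'⟩ := big _ ht2
      rcases nb_t1 (weak hadj) with rfl | rfl
      · rcases nb_t2 (weak hadj') with rfl | rfl
        · have := Pfun (Psymm hv) (Psymm hw)
          simp at this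
        · have := Pfun hv (Psymm hw)
          simp at this
      · linarith
  choose σ hσr hσM hσy using tri
  have weak : ∀ {u v : Kd × E × S},
      (G.Adj u v ∨ ((aG e0).Adj u v ∧ s(u, v) ∈ F)) → (G.Adj u v ∨ (aG e0).Adj u v) :=
      fun h => h.imp id And.left
  -- the pendant pairs that must be present
  have zpair : ∀ e a, y (Kd.x, e, a) ≤ 1 / 2 → s((Kd.x, e, a), (Kd.z, e, a)) ∉ M →
      s((Kd.z, e, a), (Kd.zz, e, a)) ∈ F := by
    intro e a hxa hnot
    have h1 := covG _ _ (adj_xz (r := r) (e0 := e0) (s0 := s0) e a)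
    obtain ⟨v, hv, hadj, hsum⟩ := big (Kd.z, e, a) (by linarith)
    rcases nb_z (weak hadj) with rfl | rfl
    · exact absurd (Psymm hv) hnot
    · rcases hadj with h | h
      · simp [hG, gG_adj, gRel] at h
      · exact h.2
  have hzσ : ∀ e, s((Kd.z, e, σ e), (Kd.zz, e, σ e)) ∈ F := by
    intro e
    apply zpair e (σ e) (hσy e)
    intro hcon
    have := Pfun hcon (Psymm (hσM e))
    simp at this
  have hsσ : ∀ a, (∃ e, σ e = a) → s((Kd.s, e0, a), (Kd.ss, e0, a)) ∈ F ∨
      ∃ e', σ e' ≠ a ∧ s((Kd.z, e', a), (Kd.zz, e', a)) ∈ F := by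
    rintro a ⟨e, rfl⟩
    have h1 := covG _ _ (adj_xs (r := r) (e0 := e0) (s0 := s0) e (σ e))
    have h2 := hσy e
    obtain ⟨v, hv, hadj, hsum⟩ := big (Kd.s, e0, σ e) (by linarith)
    rcases nb_s (weak hadj) with ⟨e', rfl⟩ | rfl
    · right
      refine ⟨e', ?_, ?_⟩
      · intro heq'
        have h3 := hσM e'
        rw [heq'] at h3
        have := Pfun (Psymm hv) (Psymm h3)
        simp at this
      · apply zpair e' (σ e) (by linarith)
        intro hcon
        have := Pfun (Psymm hv) hcon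
        simp at this
    · left
      rcases hadj with h | h
      · simp [hG, gG_adj, gRel] at h
      · exact h.2
  -- counting
  let C : Finset S := Finset.univ.image σ
  refine ⟨C, ?_, fun e => ⟨σ e, Finset.mem_image_of_mem _ (Finset.mem_univ e), hσr e⟩⟩
  let g : E ⊕ S → Sym2 (Kd × E × S) := fun q => match q with
    | Sum.inl e => s((Kd.z, e, σ e), (Kd.zz, e, σ e))
    | Sum.inr a => if h : (∃ e', σ e' ≠ a ∧ s((Kd.z, e', a), (Kd.zz, e', a)) ∈ F) then
        s((Kd.z, h.choose, a), (Kd.zz, h.choose, a)) else s((Kd.s, e0, a), (Kd.ss, e0, a))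
  have hcard2 : (Finset.univ.disjSum C : Finset (E ⊕ S)).card ≤ F.card := by
    apply Finset.card_le_card_of_injOn g
    · intro q hq
      rcases q with e | a
      · exact hzσ e
      · simp only [g]
        have ha : ∃ e, σ e = a := by
          have := Finset.inr_mem_disjSum.1 (Finset.mem_coe.1 hq)
          simpa [C] using this
        split_ifs with h
        · exact h.choose_spec.2
        · rcases hsσ a ha with h' | h'
          · exact h'
          · exact absurd h' h
    · intro q _ q' _ hqq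
      rcases q with e | a <;> rcases q' with e' | a'
      · simp only [g] at hqq
        rw [Sym2.eq_iff] at hqq
        simp at hqq
        rw [hqq.1]
      · exfalso
        simp only [g] at hqq
        split_ifs at hqq with h
        · rw [Sym2.eq_iff] at hqq
          simp only [Prod.mk.injEq, true_and, reduceCtorEq, false_and, or_false, and_self] at hqq
          obtain ⟨h1, h2⟩ := hqq
          apply h.choose_spec.1
          rw [← h1, h2]
        · rw [Sym2.eq_iff] at hqq
          simp at hqq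
      · exfalso
        simp only [g] at hqq
        split_ifs at hqq with h
        · rw [Sym2.eq_iff] at hqq
          simp only [Prod.mk.injEq, true_and, reduceCtorEq, false_and, or_false, and_self] at hqq
          obtain ⟨h1, h2⟩ := hqq
          apply h.choose_spec.1
          rw [h1, h2]
        · rw [Sym2.eq_iff] at hqq
          simp at hqq
      · simp only [g] at hqq
        congr 1
        split_ifs at hqq with h h' h' <;> rw [Sym2.eq_iff] at hqq <;> simp at hqq
        · exact hqq.2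
        · exact hqq
  rw [Finset.card_disjSum, Finset.card_univ] at hcard2
  omega

theorem backward [Fintype E] [Fintype S] {c : Sym2 (Kd × E × S) → ℝ} 
    (hc1 : ∀ u v, (gG r e0 s0).Adj u v → c s(u, v) = 1)
    (hc2 : ∀ u v, (aG e0).Adj u v → c s(u, v) = 1)
    {k : ℕ} (C : Finset S) (hC : C.card ≤ k) (hcov : ∀ e, ∃ a ∈ C, r e a) :
    CanStab (gG r e0 s0) c (Fintype.card E + k) := by
  classical
  choose σ hσC hσr using hcov
  let F : Finset (Sym2 (Kd × E × S)) :=
    (Finset.univ.image fun e => s((Kd.z, e, σ e), (Kd.zz, e, σ e))) ∪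
      (C.image fun a => s((Kd.s, e0, a), (Kd.ss, e0, a)))
  have hFmem : ∀ q, q ∈ F ↔ (∃ e, s((Kd.z, e, σ e), (Kd.zz, e, σ e)) = q) ∨
      ∃ a ∈ C, s((Kd.s, e0, a), (Kd.ss, e0, a)) = q := by
    intro q
    simp [F]
  refine ⟨F, ?_, ?_, ?_⟩
  · intro q hq
    rcases (hFmem q).1 hq with ⟨e, rfl⟩ | ⟨a, _, rfl⟩
    · simp [gG_adj, gRel]
    · simp [gG_adj, gRel]
  · calc F.card ≤ _ := Finset.card_union_le _ _
      _ ≤ Fintype.card E + C.card := by
        apply Nat.add_le_add
        · exact Finset.card_image_le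
        · exact Finset.card_image_le
      _ ≤ _ := by omega
  · rw [stable_iff]
    set G := gG r e0 s0 with hG
    set H := G ⊔ SimpleGraph.fromEdgeSet (F : Set (Sym2 (Kd × E × S))) with hH
    -- the cover
    let y : Kd × E × S → ℝ := fun v => match v with
      | (.t0, _, a) => if a = s0 then 1 / 2 else 0
      | (.t1, _, a) => if a = s0 then 1 / 2 else 0
      | (.t2, _, a) => if a = s0 then 1 / 2 else 0
      | (.x, e, a) => if a = σ e then 1 / 2 else 1
      | (.z, e, a) => if a = σ e then 1 else 0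
      | (.zz, _, _) => 0
      | (.s, e, a) => if e = e0 ∧ a ∈ C then 1 else 0
      | (.ss, _, _) => 0
    let p : Kd × E × S → Kd × E × S := fun v => match v with
      | (.t0, e, a) => if a = s0 then (.x, e, σ e) else (.t0, e, a)
      | (.t1, e, a) => if a = s0 then (.t2, e, a) else (.t1, e, a)
      | (.t2, e, a) => if a = s0 then (.t1, e, a) else (.t2, e, a)
      | (.x, e, a) => if a = σ e then (.t0, e, s0) else (.z, e, a)
      | (.z, e, a) => if a = σ e then (.zz, e, a) else (.x, e, a)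
      | (.zz, e, a) => if a = σ e then (.z, e, a) else (.zz, e, a)
      | (.s, e, a) => if e = e0 ∧ a ∈ C then (.ss, e, a) else (.s, e, a)
      | (.ss, e, a) => if e = e0 ∧ a ∈ C then (.s, e, a) else (.ss, e, a)
    have hp : ∀ v, p (p v) = v := by
      rintro ⟨k, e, a⟩
      cases k <;> simp only [p] <;> split_ifs <;> simp_all
    have hHz : ∀ e, H.Adj (Kd.z, e, σ e) (Kd.zz, e, σ e) := by
      intro e
      rw [hH, SimpleGraph.sup_adj, SimpleGraph.fromEdgeSet_adj]
      right
      refine ⟨?_, by simp⟩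
      rw [Finset.mem_coe, hFmem]
      exact Or.inl ⟨e, rfl⟩
    have hHs : ∀ a ∈ C, H.Adj (Kd.s, e0, a) (Kd.ss, e0, a) := by
      intro a ha
      rw [hH, SimpleGraph.sup_adj, SimpleGraph.fromEdgeSet_adj]
      right
      refine ⟨?_, by simp⟩
      rw [Finset.mem_coe, hFmem]
      exact Or.inr ⟨a, ha, rfl⟩
    have hGH : ∀ {u v}, G.Adj u v → H.Adj u v := by
      intro u v h
      rw [hH, SimpleGraph.sup_adj]
      exact Or.inl h
    have cz : ∀ e a, c s((Kd.z, e, a), (Kd.zz, e, a)) = 1 := by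
      intro e a
      apply hc2
      simp [aG_adj, aRel]
    have cs : ∀ a, c s((Kd.s, e0, a), (Kd.ss, e0, a)) = 1 := by
      intro a
      apply hc2
      simp [aG_adj, aRel]
    have h1 : ∀ v, p v ≠ v → H.Adj v (p v) ∧ y v + y (p v) = c s(v, p v) := by
      rintro ⟨k, e, a⟩ hv
      cases k
      · simp only [p] at hv ⊢
        split_ifs at hv ⊢ with h
        · subst h
          refine ⟨hGH (adj_tx (hσr e)), ?_⟩
          rw [hc1 _ _ (adj_tx (hσr e))]
          simp [y]
          norm_num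
        · exact absurd rfl hv
      · simp only [p] at hv ⊢
        split_ifs at hv ⊢ with h
        · subst h
          refine ⟨hGH (adj_t12 e), ?_⟩
          rw [hc1 _ _ (adj_t12 e)]
          simp [y]
          norm_num
        · exact absurd rfl hv
      · simp only [p] at hv ⊢
        split_ifs at hv ⊢ with h
        · subst h
          refine ⟨(hGH (adj_t12 e)).symm, ?_⟩
          rw [hc1 _ _ (adj_t12 e).symm]
          simp [y]
          norm_num
        · exact absurd rfl hv
      · simp only [p] at hv ⊢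
        split_ifs at hv ⊢ with h
        · subst h
          refine ⟨(hGH (adj_tx (hσr e))).symm, ?_⟩
          rw [hc1 _ _ (adj_tx (hσr e)).symm]
          simp [y]
          norm_num
        · refine ⟨hGH (adj_xz e a), ?_⟩
          rw [hc1 _ _ (adj_xz e a)]
          simp [y, h]
      · simp only [p] at hv ⊢
        split_ifs at hv ⊢ with h
        · subst h
          refine ⟨hHz e, ?_⟩
          rw [cz]
          simp [y]
        · refine ⟨(hGH (adj_xz e a)).symm, ?_⟩
          rw [hc1 _ _ (adj_xz e a).symm]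
          simp [y, h]
      · simp only [p] at hv ⊢
        split_ifs at hv ⊢ with h
        · subst h
          refine ⟨(hHz e).symm, ?_⟩
          rw [Sym2.eq_swap, cz]
          simp [y]
        · exact absurd rfl hv
      · simp only [p] at hv ⊢
        split_ifs at hv ⊢ with h
        · obtain ⟨rfl, ha⟩ := h
          refine ⟨hHs a ha, ?_⟩
          rw [cs]
          simp [y, ha]
        · exact absurd rfl hv
      · simp only [p] at hv ⊢
        split_ifs at hv ⊢ with h
        · obtain ⟨rfl, ha⟩ := h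
          refine ⟨(hHs a ha).symm, ?_⟩
          rw [Sym2.eq_swap, cs]
          simp [y, ha]
        · exact absurd rfl hv
    have h2 : ∀ v, p v = v → y v = 0 := by
      rintro ⟨k, e, a⟩ hv
      cases k <;> simp only [p, y] at hv ⊢ <;> split_ifs at hv ⊢ <;> simp_all
    obtain ⟨M, hM, hsum⟩ := exists_matching_of_involution H c y p hp h1 h2
    refine ⟨M, hM, y, ⟨?_, ?_⟩, hsum⟩
    · rintro ⟨k, e, a⟩
      cases k <;> simp only [y] <;> first | (split_ifs <;> norm_num) | norm_num
    · -- cover condition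
      have key : ∀ u v, gRel r e0 s0 u v → 1 ≤ y u + y v := by
        rintro ⟨k, e, a⟩ ⟨k', e', a'⟩ h
        cases k <;> cases k' <;> simp only [gRel] at h
        · obtain ⟨rfl, rfl, rfl⟩ := h; simp only [y, if_true]; norm_num
        · obtain ⟨rfl, rfl, rfl⟩ := h; simp only [y, if_true]; norm_num
        · obtain ⟨rfl, rfl, h⟩ := h; simp only [y, if_true]; split_ifs <;> norm_num
        · obtain ⟨rfl, rfl, rfl⟩ := h; simp only [y, if_true]; norm_num
        · obtain ⟨rfl, rfl⟩ := h
          simp only [y]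
          split_ifs <;> norm_num
        · obtain ⟨rfl, rfl⟩ := h
          simp only [y]
          by_cases haC : a ∈ C
          · simp only [haC, and_self, if_true]
            split_ifs <;> norm_num
          · have : a ≠ σ e := by
              rintro rfl
              exact haC (hσC e)
            simp [haC, this]
      intro u v huv
      rw [hH, SimpleGraph.sup_adj, SimpleGraph.fromEdgeSet_adj] at huv
      rcases huv with huv | ⟨huv, _⟩
      · rw [hc1 u v huv]
        rcases huv.2 with h | h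
        · exact key u v h
        · have := key v u h
          linarith
      · rw [Finset.mem_coe, hFmem] at huv
        rcases huv with ⟨e, he⟩ | ⟨a, ha, he⟩
        · rw [← he, cz]
          rw [Sym2.eq_iff] at he
          rcases he with ⟨rfl, rfl⟩ | ⟨rfl, rfl⟩ <;> simp [y]
        · rw [← he, cs]
          rw [Sym2.eq_iff] at he
          rcases he with ⟨rfl, rfl⟩ | ⟨rfl, rfl⟩ <;> simp [y, ha]

end Pool.Agent.Helper79.EdgeAdd
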