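import Pool.Agent.Helper79.EdgeAdd.Duality

/-!
Invariance of the problem under bijections of the vertex set.
-/

namespace Pool.Agent.Helper79.EdgeAdd

variable {V V' : Type*} [Fintype V] [Fintype V']

theorem stable_comap {G : SimpleGraph V} {c : Sym2 V → ℝ} (φ : V' ≃ V) (h : Stable G c) :
    Stable (G.comap φ) (fun e => c (e.map φ)) := by
  classical
  rw [stable_iff] at h ⊢
  obtain ⟨M, hM, y, hy, heq⟩ := h
  let ψ : Sym2 V ↪ Sym2 V' := ⟨Sym2.map φ.symm, Sym2.map.injective φ.symm.injective⟩
  have hψ : ∀ e, (ψ e).map φ = e := by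
    intro e
    simp [ψ, Sym2.map_map]
  refine ⟨M.map ψ, ⟨?_, ?_⟩, fun v => y (φ v), ⟨fun v => hy.1 _, ?_⟩, ?_⟩
  · intro e he
    obtain ⟨e', he', rfl⟩ := Finset.mem_map.1 he
    have := hM.1 e' he'
    clear he he'
    induction e' with
    | h u v =>
      simp only [ψ, Function.Embedding.coeFn_mk, Sym2.map_mk, SimpleGraph.mem_edgeSet,
        SimpleGraph.comap_adj, Equiv.apply_symm_apply]
      exact this
  · intro e he f hf v hve hvf
    obtain ⟨e', he', rfl⟩ := Finset.mem_map.1 he
    obtain ⟨f', hf', rfl⟩ := Finset.mem_map.1 hf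
    have h1 : φ v ∈ e' := by
      rw [← hψ e']; exact Sym2.mem_map.2 ⟨v, hve, rfl⟩
    have h2 : φ v ∈ f' := by
      rw [← hψ f']; exact Sym2.mem_map.2 ⟨v, hvf, rfl⟩
    rw [hM.2 e' he' f' hf' (φ v) h1 h2]
  · intro u v huv
    exact hy.2 (φ u) (φ v) huv
  · rw [Finset.sum_map]
    simp only [hψ]
    rw [heq]
    exact (Equiv.sum_comp φ y).symm

theorem canStab_comap {G : SimpleGraph V} {c : Sym2 V → ℝ} {k : ℕ} (φ : V' ≃ V)
    (h : CanStab G c k) : CanStab (G.comap φ) (fun e => c (e.map φ)) k := by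
  classical
  obtain ⟨F, hF, hk, hst⟩ := h
  let ψ : Sym2 V ↪ Sym2 V' := ⟨Sym2.map φ.symm, Sym2.map.injective φ.symm.injective⟩
  have hψ : ∀ e, (ψ e).map φ = e := by
    intro e
    simp [ψ, Sym2.map_map]
  refine ⟨F.map ψ, ?_, by simpa using hk, ?_⟩
  · intro e he
    obtain ⟨e', he', rfl⟩ := Finset.mem_map.1 he
    have := hF e' he'
    clear he he'
    induction e' with
    | h u v =>
      simpa [ψ] using this
  · have hG : G.comap φ ⊔ SimpleGraph.fromEdgeSet ((F.map ψ : Finset (Sym2 V')) : Set (Sym2 V'))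
        = (G ⊔ SimpleGraph.fromEdgeSet (F : Set (Sym2 V))).comap φ := by
      ext u v
      simp only [SimpleGraph.sup_adj, SimpleGraph.comap_adj, SimpleGraph.fromEdgeSet_adj,
        Finset.coe_map, Set.mem_image, Finset.mem_coe]
      constructor
      · rintro (h | ⟨⟨e, he, heq⟩, hne⟩)
        · exact Or.inl h
        · right
          have : e = s(φ u, φ v) := by
            rw [← hψ e, heq]; simp
          rw [← this]
          exact ⟨he, fun h => hne (φ.injective h)⟩
      · rintro (h | ⟨h, hne⟩)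
        · exact Or.inl h
        · right
          refine ⟨⟨s(φ u, φ v), h, by simp [ψ]⟩, ?_⟩
          rintro rfl
          exact hne rfl
    rw [hG]
    exact stable_comap φ hst

theorem canStab_comap_iff {G : SimpleGraph V} {c : Sym2 V → ℝ} {k : ℕ} (φ : V' ≃ V) :
    CanStab (G.comap φ) (fun e => c (e.map φ)) k ↔ CanStab G c k := by
  constructor
  · intro h
    have := canStab_comap φ.symm h
    have e1 : (G.comap φ).comap φ.symm = G := by
      ext u v; simp
    have e2 : (fun e : Sym2 V => c ((e.map φ.symm).map φ)) = c := by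
      funext e; simp [Sym2.map_map]
    rw [e1, e2] at this
    exact this
  · exact canStab_comap φ

end Pool.Agent.Helper79.EdgeAdd
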