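import Pool.Agent.Helper79.EdgeAdd.Print
import Pool.Agent.Helper79.EdgeAdd.Transport
import Pool.Agent.Helper79.Complexity.NPGrid

/-!
NP-hardness of weighted min-EDGE-ADD.
-/

namespace Pool.Agent.Helper79.EdgeAdd

open Pool.Agent.Helper79.Complexity Computability

section

variable (C : Type)

abbrev K0 := Option (C × C × C × C)
abbrev VN := Kd × (ℕ × ℕ × K0 C) × (ℕ × ℕ × C)
abbrev VT (T : ℕ) := Kd × (Fin T × Fin T × K0 C) × (Fin T × Fin T × C)

end

variable {C : Type} 

/-- vertex with given coordinates -/
def mkV {α : Type} (t i t' i' : α) (b : Kd × K0 C × C) : Kd × (α × α × K0 C) × (α × α × C) :=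
  (b.1, (t, i, b.2.1), (t', i', b.2.2))

def natV {T : ℕ} (u : VT C T) : VN C := (u.1, natE u.2.1, natE u.2.2)

theorem natE_inj {T : ℕ} {κ : Type} {e e' : Fin T × Fin T × κ} : natE e = natE e' ↔ e = e' := by
  obtain ⟨t, i, k⟩ := e
  obtain ⟨t', i', k'⟩ := e'
  simp [natE, Fin.ext_iff]

/-- the incidence relation, on bounded indices -/
def relT (W : C → C → C → C → Prop) (U : Cls → C → Prop) (x : List Bool) (T q : ℕ)
    (e : Fin T × Fin T × K0 C) (s : Fin T × Fin T × C) : Prop :=
  coverRel W U x T q (natE e) (natE s)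

theorem gRel_nat {W : C → C → C → C → Prop} {U : Cls → C → Prop} {x : List Bool} {T q : ℕ}
    {e0 : Fin T × Fin T × K0 C} {s0 : Fin T × Fin T × C} (u v : VT C T) :
    gRel (relT W U x T q) e0 s0 u v ↔
      gRel (coverRel W U x T q) (natE e0) (natE s0) (natV u) (natV v) := by
  obtain ⟨k, e, s⟩ := u
  obtain ⟨k', e', s'⟩ := v
  cases k <;> cases k' <;> simp only [gRel, natV, natE_inj, relT]

theorem aRel_nat {T : ℕ} {e0 : Fin T × Fin T × K0 C} (u v : VT C T) :
    aRel e0 u v ↔ aRel (natE e0) (natV u) (natV v) := by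
  obtain ⟨k, e, s⟩ := u
  obtain ⟨k', e', s'⟩ := v
  cases k <;> cases k' <;> simp only [aRel, natV, natE_inj]

theorem gG_adj' {E S : Type*} {r : E → S → Prop} {e0 : E} {s0 : S} (u v : Kd × E × S) :
    (gG r e0 s0).Adj u v ↔ gRel r e0 s0 u v ∨ gRel r e0 s0 v u := by
  rw [gG_adj]
  refine ⟨fun h => h.2, fun h => ⟨?_, h⟩⟩
  rintro rfl
  obtain ⟨k, e, s⟩ := u
  cases k <;> simp [gRel] at h

theorem aG_adj' {E S : Type*} {e0 : E} (u v : Kd × E × S) :
    (aG e0).Adj u v ↔ aRel e0 u v ∨ aRel e0 v u := by
  rw [aG_adj]
  refine ⟨fun h => h.2, fun h => ⟨?_, h⟩⟩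
  rintro rfl
  obtain ⟨k, e, s⟩ := u
  cases k <;> simp [aRel] at h

variable [Fintype C]

/-- the list of the finite parts of the vertices -/
noncomputable def Bs (C : Type) [Fintype C] : List (Kd × K0 C × C) := Finset.univ.toList

/-- the list of all vertices -/
noncomputable def verts (C : Type) [Fintype C] (T : ℕ) : List (VT C T) :=
  (((List.finRange T ×ˢ List.finRange T) ×ˢ (List.finRange T ×ˢ List.finRange T)) ×ˢ Bs C).map
    (fun p => mkV p.1.1.1 p.1.1.2 p.1.2.1 p.1.2.2 p.2)

theorem verts_nodup (T : ℕ) : (verts C T).Nodup := by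
  apply List.Nodup.map
  · rintro ⟨⟨⟨a, b⟩, c, d⟩, e, f, g⟩ ⟨⟨⟨a', b'⟩, c', d'⟩, e', f', g'⟩ h
    simp only [mkV, Prod.mk.injEq] at h
    obtain ⟨h1, ⟨h2, h3, h4⟩, h5, h6, h7⟩ := h
    simp [h1, h2, h3, h4, h5, h6, h7]
  · exact (((List.nodup_finRange T).product (List.nodup_finRange T)).product
      ((List.nodup_finRange T).product (List.nodup_finRange T))).product (Finset.nodup_toList _)

theorem mem_verts (T : ℕ) (u : VT C T) : u ∈ verts C T := by
  obtain ⟨k, ⟨t, i, κ⟩, t', i', c⟩ := u
  refine List.mem_map.2 ⟨(((t, i), (t', i')), (k, κ, c)), ?_, rfl⟩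
  refine List.mem_product.2 ⟨List.mem_product.2 ⟨?_, ?_⟩, ?_⟩
  · exact List.mem_product.2 ⟨List.mem_finRange _, List.mem_finRange _⟩
  · exact List.mem_product.2 ⟨List.mem_finRange _, List.mem_finRange _⟩
  · exact Finset.mem_toList.2 (Finset.mem_univ _)

theorem product_flatMap {α β γ : Type*} (l1 : List α) (l2 : List β) (g : α × β → List γ) :
    (l1 ×ˢ l2).flatMap g = l1.flatMap fun a => l2.flatMap fun b => g (a, b) := by
  change (l1.flatMap fun a => l2.map (Prod.mk a)).flatMap g = _
  rw [List.flatMap_assoc]
  congr 1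
  funext a
  rw [List.flatMap_map]

theorem finRange_flatMap {γ : Type*} (T : ℕ) (H : ℕ → List γ) :
    (List.finRange T).flatMap (fun t : Fin T => H (t : ℕ)) = (List.range T).flatMap H := by
  have h : List.range T = (List.finRange T).map (fun i : Fin T => (i : ℕ)) :=
    List.map_coe_finRange_eq_range.symm
  rw [h, List.flatMap_map]

theorem finRange_flatMap4 {γ : Type*} (T : ℕ) (G : ℕ → ℕ → ℕ → ℕ → List γ) :
    ((List.finRange T).flatMap fun t : Fin T => (List.finRange T).flatMap fun i : Fin T =>
      (List.finRange T).flatMap fun t' : Fin T => (List.finRange T).flatMap fun i' : Fin T =>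
        G (t : ℕ) (i : ℕ) (t' : ℕ) (i' : ℕ)) =
    (List.range T).flatMap fun t => (List.range T).flatMap fun i =>
      (List.range T).flatMap fun t' => (List.range T).flatMap fun i' => G t i t' i' := by
  rw [← finRange_flatMap T (fun t => (List.range T).flatMap fun i =>
      (List.range T).flatMap fun t' => (List.range T).flatMap fun i' => G t i t' i')]
  congr 1; funext t
  rw [← finRange_flatMap T (fun i =>
      (List.range T).flatMap fun t' => (List.range T).flatMap fun i' => G t i t' i')]
  congr 1; funext i
  rw [← finRange_flatMap T (fun t' => (List.range T).flatMap fun i' => G t i t' i')]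
  congr 1; funext t'
  rw [← finRange_flatMap T (fun i' => G t i t' i')]

theorem verts_flatMap (T : ℕ) (H : VN C → List Bool) :
    (verts C T).flatMap (fun u => H (natV u)) =
      (List.range T).flatMap fun t => (List.range T).flatMap fun i =>
      (List.range T).flatMap fun t' => (List.range T).flatMap fun i' =>
      (Bs C).flatMap fun b => H (mkV t i t' i' b) := by
  rw [← finRange_flatMap4 T (fun t i t' i' => (Bs C).flatMap fun b => H (mkV t i t' i' b))]
  rw [verts, List.flatMap_map, product_flatMap, product_flatMap, product_flatMap]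
  congr 1; funext t
  congr 1; funext i
  rw [product_flatMap]
  rfl

/-- the bijection between the vertices and their numbers -/
noncomputable def vEquiv (C : Type) [Fintype C] (T : ℕ) : Fin (verts C T).length ≃ VT C T :=
  Equiv.ofBijective (verts C T).get
    ((verts_nodup T).getBijectionOfForallMemList (verts C T) (mem_verts T)).2

theorem map_vEquiv {γ : Type*} (T : ℕ) (F : VT C T → γ) :
    (List.finRange (verts C T).length).map (fun i => F (vEquiv C T i)) = (verts C T).map F := by
  conv_rhs => rw [← List.map_get_finRange (verts C T), List.map_map]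
  rfl

section inst

variable (W : C → C → C → C → Prop) (U : Cls → C → Prop) (c0 : C) (ε : ℚ≥0) (x : List Bool)
  (T q : ℕ) (hT : 0 < T)

/-- base element -/
def be0 : Fin T × Fin T × K0 C := (⟨0, hT⟩, ⟨0, hT⟩, none)

/-- base set -/
def bs0 : Fin T × Fin T × C := (⟨0, hT⟩, ⟨0, hT⟩, c0)

open Classical in
/-- weights -/
noncomputable def wtT (e : Sym2 (VT C T)) : ℚ≥0 :=
  if e ∈ (gG (relT W U x T q) (be0 T hT) (bs0 c0 T hT)).edgeSet ∨
    e ∈ (aG (S := Fin T × Fin T × C) (be0 (C := C) T hT)).edgeSet then 1 else ε

/-- the instance of weighted min-EDGE-ADD produced by the reduction -/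
noncomputable def theInst : Inst where
  n := (verts C T).length
  G := (gG (relT W U x T q) (be0 T hT) (bs0 c0 T hT)).comap (vEquiv C T)
  c := fun e => wtT W U c0 ε x T q hT (e.map (vEquiv C T))
  k := T * T * (Fintype.card (K0 C) + 1)

open Classical in
/-- the entry of the matrix for two vertices -/
noncomputable def entN (u v : VN C) : List Bool :=
  [true] ++ (if gRel (coverRel W U x T q) (0, 0, none) (0, 0, c0) u v ∨
      gRel (coverRel W U x T q) (0, 0, none) (0, 0, c0) v u then true :: encRat 1
    else if aRel (0, 0, none) u v ∨ aRel (0, 0, none) v u then false :: encRat 1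
    else false :: encRat ε)

/-- nested ranges -/
noncomputable def nest (T : ℕ) (H : VN C → List Bool) : List Bool :=
  (List.range T).flatMap fun t => (List.range T).flatMap fun i =>
  (List.range T).flatMap fun t' => (List.range T).flatMap fun i' =>
  (Bs C).flatMap fun b => H (mkV t i t' i' b)

theorem bits_theInst :
    (theInst W U c0 ε x T q hT).bits =
      (nest T fun u => [true] ++ (nest T (entN W U c0 ε x T q u) ++ [false])) ++ [false] ++
      ((List.range T).flatMap fun _ => (List.range T).flatMap fun _ =>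
        List.replicate (Fintype.card (K0 C) + 1) true) := by
  classical
  set I := theInst W U c0 ε x T q hT with hI
  let P : VT C T → VT C T → Bool × ℚ≥0 := fun u v =>
    (decide ((gG (relT W U x T q) (be0 T hT) (bs0 c0 T hT)).Adj u v),
      wtT W U c0 ε x T q hT s(u, v))
  have hmat : I.matrix = (verts C T).map (fun u => (verts C T).map (P u)) := by
    rw [← map_vEquiv]
    unfold Inst.matrix
    apply List.map_congr_left
    intro i _
    rw [← map_vEquiv]
    apply List.map_congr_left
    intro j _
    exact Prod.ext (decide_eq_decide.2 Iff.rfl) rfl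
  have hent : ∀ u v, true :: ((P u v).1 :: encRat (P u v).2) =
      entN W U c0 ε x T q (natV u) (natV v) := by
    intro u v
    have h1 : (gG (relT W U x T q) (be0 T hT) (bs0 c0 T hT)).Adj u v ↔
        gRel (coverRel W U x T q) (0, 0, none) (0, 0, c0) (natV u) (natV v) ∨
        gRel (coverRel W U x T q) (0, 0, none) (0, 0, c0) (natV v) (natV u) := by
      rw [gG_adj', gRel_nat, gRel_nat]
      rfl
    have h2 : (aG (S := Fin T × Fin T × C) (be0 (C := C) T hT)).Adj u v ↔
        aRel (0, 0, none) (natV u) (natV v) ∨ aRel (0, 0, none) (natV v) (natV u) := by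
      rw [aG_adj', aRel_nat, aRel_nat]
      rfl
    simp only [P, wtT, entN, SimpleGraph.mem_edgeSet, List.singleton_append]
    by_cases hg : (gG (relT W U x T q) (be0 T hT) (bs0 c0 T hT)).Adj u v
    · rw [if_pos (h1.1 hg)]
      simp [hg]
    · rw [if_neg (fun h => hg (h1.2 h))]
      by_cases ha : (aG (S := Fin T × Fin T × C) (be0 (C := C) T hT)).Adj u v
      · rw [if_pos (h2.1 ha)]
        simp [hg, ha]
      · rw [if_neg (fun h => ha (h2.2 h))]
        simp [hg, ha]
  have hk : List.replicate I.k true = (List.range T).flatMap fun _ => (List.range T).flatMap fun _ =>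
        List.replicate (Fintype.card (K0 C) + 1) true := by
    have hrep : ∀ (n : ℕ) (m : ℕ), ((List.range n).flatMap fun _ => List.replicate m true)
        = List.replicate (n * m) true := by
      intro n m
      induction n with
      | zero => simp
      | succ n ih =>
        rw [List.range_succ, List.flatMap_append, ih]
        simp only [List.flatMap_cons, List.flatMap_nil, List.append_nil]
        rw [← List.replicate_add]
        congr 1
        ring
    rw [hrep, hrep, hI, theInst]
    simp only
    congr 1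
    ring
  unfold Inst.bits
  rw [hmat, hk]
  congr 1
  unfold encList
  rw [List.flatMap_map]
  congr 1
  have h2 := verts_flatMap (C := C) T
    (fun u => [true] ++ (nest T (entN W U c0 ε x T q u) ++ [false]))
  refine Eq.trans ?_ h2
  congr 1
  funext u
  have h3 := verts_flatMap (C := C) T (entN W U c0 ε x T q (natV u))
  unfold nest
  rw [← h3, List.flatMap_map]
  simp only [List.singleton_append, hent]

theorem theInst_yes (hT' : 0 < T) (hε : ε < 1 / 2) :
    (theInst W U c0 ε x T q hT').Yes ↔
      ∃ f : ℕ → ℕ → C, Grid W U x T q f := by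
  classical
  haveI : Inhabited C := ⟨c0⟩
  unfold Inst.Yes
  have hce : (fun e => ((theInst W U c0 ε x T q hT').c e : ℝ)) =
      fun e => (fun e => ((wtT W U c0 ε x T q hT' e : ℚ≥0) : ℝ)) (e.map (vEquiv C T)) := rfl
  rw [hce]
  have h1 := canStab_comap_iff (k := (theInst W U c0 ε x T q hT').k)
    (G := gG (relT W U x T q) (be0 T hT') (bs0 c0 T hT'))
    (c := fun e => ((wtT W U c0 ε x T q hT' e : ℚ≥0) : ℝ)) (vEquiv C T)
  refine Iff.trans h1 ?_
  have hk : (theInst W U c0 ε x T q hT').k
      = Fintype.card (Fin T × Fin T × K0 C) + T * T := by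
    simp only [theInst, Fintype.card_prod, Fintype.card_fin]
    ring
  rw [hk, grid_iff_cover]
  have hc1 : ∀ u v, (gG (relT W U x T q) (be0 T hT') (bs0 c0 T hT')).Adj u v →
      ((wtT W U c0 ε x T q hT' s(u, v) : ℚ≥0) : ℝ) = 1 := by
    intro u v h
    simp [wtT, h]
  have hc2 : ∀ u v, (aG (S := Fin T × Fin T × C) (be0 (C := C) T hT')).Adj u v →
      ((wtT W U c0 ε x T q hT' s(u, v) : ℚ≥0) : ℝ) = 1 := by
    intro u v h
    simp [wtT, h]
  have hc3 : ∀ u v, ¬ (gG (relT W U x T q) (be0 T hT') (bs0 c0 T hT')).Adj u v →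
      ¬ (aG (S := Fin T × Fin T × C) (be0 (C := C) T hT')).Adj u v →
      ((wtT W U c0 ε x T q hT' s(u, v) : ℚ≥0) : ℝ) < 1 / 2 := by
    intro u v h h'
    have h2 : wtT W U c0 ε x T q hT' s(u, v) = ε := by
      simp [wtT, h, h']
    rw [h2]
    have : ((ε : ℚ≥0) : ℝ) < ((1 / 2 : ℚ≥0) : ℝ) := by exact_mod_cast hε
    simpa using this
  constructor
  · intro h
    exact forward hc1 hc2 hc3 h
  · rintro ⟨A, hA, hcov⟩
    exact backward hc1 hc2 A hA hcov

theorem theInst_unit (hT' : 0 < T) : theInst W U c0 ε x T q hT' ∈ unitInstances ε := by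
  intro e
  constructor
  · intro he
    simp only [theInst, wtT]
    rw [if_pos]
    left
    induction e with
    | h u v => exact he
  · simp only [theInst, wtT]
    split_ifs
    · exact Or.inr rfl
    · exact Or.inl rfl

end inst

/-! ### Printing -/

section print

variable (W : C → C → C → C → Prop) (U : Cls → C → Prop) (c0 : C) (ε : ℚ≥0)

/-- a loop over the counter `k` -/
def loopE (k : Fin 8) (g : Env 8 → List Bool) : Env 8 → List Bool :=
  fun e => (List.range e.T).flatMap (fun i => g (e.set k i))

theorem Printable.loopE {S : Set (Fin 8)} {g : Env 8 → List Bool} (k : Fin 8) (hk : k ∈ S)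
    (h : Printable (S \ {k}) g) : Printable S (loopE k g) := Printable.loop k hk h

/-- the entry, as a function of the environment -/
noncomputable def entE (b b' : Kd × K0 C × C) (e : Env 8) : List Bool :=
  entN W U c0 ε e.x e.T e.q (mkV (e.val 0) (e.val 1) (e.val 2) (e.val 3) b)
    (mkV (e.val 4) (e.val 5) (e.val 6) (e.val 7) b')

theorem printable_entE (b b' : Kd × K0 C × C) : Printable ∅ (entE W U c0 ε b b') := by
  classical
  unfold entE entN
  apply (Printable.const ∅ [true]).append
  apply Printable.ite
  · exact (testable_gRel W U 0 1 2 3 4 5 6 7 b.1 b'.1 b.2.1 b'.2.1 none b.2.2 b'.2.2 c0).or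
      (testable_gRel W U 4 5 6 7 0 1 2 3 b'.1 b.1 b'.2.1 b.2.1 none b'.2.2 b.2.2 c0)
  · exact Printable.const ∅ _
  · apply Printable.ite
    · exact (testable_aRel 0 1 2 3 4 5 6 7 b.1 b'.1 b.2.1 b'.2.1 none b.2.2 b'.2.2).or
        (testable_aRel 4 5 6 7 0 1 2 3 b'.1 b.1 b'.2.1 b.2.1 none b'.2.2 b.2.2)
    · exact Printable.const ∅ _
    · exact Printable.const ∅ _

/-- the whole output, as a function of the environment -/
noncomputable def outE : Env 8 → List Bool := fun e =>
  (loopE 0 (loopE 1 (loopE 2 (loopE 3 (fun e => (Bs C).flatMap fun b =>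
    [true] ++ (loopE 4 (loopE 5 (loopE 6 (loopE 7 (fun e => (Bs C).flatMap fun b' =>
      entE W U c0 ε b b' e)))) e ++ [false]))))) e ++ [false]) ++
  loopE 0 (loopE 1 (fun _ => List.replicate (Fintype.card (K0 C) + 1) true)) e

theorem printable_outE : Printable Set.univ (outE W U c0 ε) := by
  have hS : (((((((Set.univ \ {0}) \ {1}) \ {2}) \ {3}) \ {4}) \ {5}) \ {6}) \ {7}
      = (∅ : Set (Fin 8)) := by
    ext k
    simp only [Set.mem_diff, Set.mem_univ, Set.mem_singleton_iff, true_and, Set.mem_empty_iff_false,
      iff_false]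
    revert k
    decide
  unfold outE
  apply Printable.append
  · apply Printable.append
    · apply Printable.loopE 0 (by simp)
      apply Printable.loopE 1 (by simp)
      apply Printable.loopE 2 (by simp)
      apply Printable.loopE 3 (by simp)
      apply Printable.flatMap
      intro b
      apply (Printable.const _ [true]).append
      refine Printable.append ?_ (Printable.const _ [false])
      apply Printable.loopE 4 (by simp)
      apply Printable.loopE 5 (by simp)
      apply Printable.loopE 6 (by simp)
      apply Printable.loopE 7 (by simp)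
      rw [hS]
      apply Printable.flatMap
      intro b'
      exact printable_entE W U c0 ε b b'
    · exact Printable.const _ _
  · apply Printable.loopE 0 (by simp)
    apply Printable.loopE 1 (by simp)
    exact Printable.const _ _

theorem outE_env0 (Tp qp : Polynomial ℕ) (x : List Bool) (hT : 0 < Tp.eval x.length) :
    outE W U c0 ε (env0 8 Tp qp x) =
      (theInst W U c0 ε x (Tp.eval x.length) (qp.eval x.length) hT).bits := by
  rw [bits_theInst]
  unfold outE loopE nest entE
  simp only [env0, Env.set, Env.val, Env.rlen, Function.update_apply]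
  simp

end print

/-- **weighted min-EDGE-ADD is NP-hard**, even on instances in which all edges have weight `1`
and all non-edges have weight `ε` or `1`, where `ε < 1/2` is any fixed rational number. -/
theorem npHard_edgeAdd (ε : ℚ≥0) (hε : ε < 1 / 2) :
    NPHardOn instEncoding (unitInstances ε) {I | I.Yes} := by
  intro L hL
  obtain ⟨C, hC, hne, W, U, Tp, qp, hTq, hx⟩ := np_grid hL
  let c0 : C := Classical.choice hne
  have hT : ∀ x : List Bool, 0 < Tp.eval x.length := fun x => by
    have := (hTq x.length).1
    omega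
  refine ⟨fun x => theInst W U c0 ε x (Tp.eval x.length) (qp.eval x.length) (hT x), ?_, ?_⟩
  · apply polyTime_of_printable instEncoding.encode _ Tp qp (outE W U c0 ε)
      (printable_outE W U c0 ε)
    intro x
    exact (outE_env0 W U c0 ε Tp qp x (hT x)).symm
  · intro x
    refine ⟨theInst_unit W U c0 ε x _ _ (hT x), ?_⟩
    rw [hx x]
    exact (theInst_yes W U c0 ε x _ _ (hT x) hε).symm

end Pool.Agent.Helper79.EdgeAdd
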