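import Pool.Agent.Helper79.EdgeAdd.Gadget
import Pool.Agent.Helper79.Complexity.Setup
import Pool.Agent.Helper79.Complexity.GridCover

/-!
Testing and printing the gadget graph of a grid colouring problem.
-/

namespace Pool.Agent.Helper79.EdgeAdd

open Pool.Agent.Helper79.Complexity

section testable

variable {m : ℕ} {C : Type}

theorem testable_eqE {κ : Type*} (k0 k1 l0 l1 : Fin m) (a b : κ) :
    Testable (fun e : Env m => (e.val k0, e.val k1, a) = (e.val l0, e.val l1, b)) :=
  ((Testable.eq k0 l0).and ((Testable.eq k1 l1).and (Testable.const (a = b)))).congr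
    (fun e _ _ => by simp)

theorem testable_eq0 {κ : Type*} (k0 k1 : Fin m) (a b : κ) :
    Testable (fun e : Env m => (e.val k0, e.val k1, a) = (0, 0, b)) :=
  ((Testable.zero k0).and ((Testable.zero k1).and (Testable.const (a = b)))).congr
    (fun e _ _ => by simp)

theorem testable_cls (U : Cls → Prop) (k0 k1 : Fin m) :
    Testable (fun e : Env m => U (cls e.x e.T e.q (e.val k0) (e.val k1))) := by
  have hsym : ∀ b1 b2 b3 b4 : Bool,
      Testable (fun e : Env m => U ⟨b1, b2, b3, b4, symCls e.x e.q (e.val k1)⟩) := by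
    intro b1 b2 b3 b4
    have h := (((Testable.letter k1 true).and
        (Testable.const (m := m) (U ⟨b1, b2, b3, b4, some (some true)⟩))).or
      (((Testable.letter k1 false).and
        (Testable.const (m := m) (U ⟨b1, b2, b3, b4, some (some false)⟩))).or
      ((((Testable.letter k1 true).not.and (Testable.letter k1 false).not).and
        (Testable.ltQ k1)).and (Testable.const (m := m) (U ⟨b1, b2, b3, b4, some none⟩))))).or
      ((((Testable.letter k1 true).not.and (Testable.letter k1 false).not).and
        (Testable.ltQ k1).not).and (Testable.const (m := m) (U ⟨b1, b2, b3, b4, none⟩)))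
    refine h.congr (fun e _ _ => ?_)
    simp only [symCls]
    cases hx : e.x[e.val k1]? with
    | none =>
      by_cases hq : e.val k1 < e.q
      · simp [hq]
      · simp [hq]
    | some b =>
      cases b <;> simp
  have h4 : ∀ b1 b2 b3 : Bool,
      Testable (fun e : Env m => U ⟨b1, b2, b3, decide (e.val k1 + 1 = e.T),
        symCls e.x e.q (e.val k1)⟩) := fun b1 b2 b3 =>
    Testable.bool (Q := fun b e => U ⟨b1, b2, b3, b, symCls e.x e.q (e.val k1)⟩)
      (Testable.last k1) (fun b => hsym b1 b2 b3 b)
  have h3 : ∀ b1 b2 : Bool,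
      Testable (fun e : Env m => U ⟨b1, b2, decide (e.val k1 = 0), decide (e.val k1 + 1 = e.T),
        symCls e.x e.q (e.val k1)⟩) := fun b1 b2 =>
    Testable.bool (Q := fun b e => U ⟨b1, b2, b, decide (e.val k1 + 1 = e.T),
      symCls e.x e.q (e.val k1)⟩) (Testable.zero k1) (fun b => h4 b1 b2 b)
  have h2 : ∀ b1 : Bool,
      Testable (fun e : Env m => U ⟨b1, decide (e.val k0 + 1 = e.T), decide (e.val k1 = 0),
        decide (e.val k1 + 1 = e.T), symCls e.x e.q (e.val k1)⟩) := fun b1 =>
    Testable.bool (Q := fun b e => U ⟨b1, b, decide (e.val k1 = 0), decide (e.val k1 + 1 = e.T),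
      symCls e.x e.q (e.val k1)⟩) (Testable.last k0) (fun b => h3 b1 b)
  have h1 := Testable.bool (Q := fun b e => U ⟨b, decide (e.val k0 + 1 = e.T),
      decide (e.val k1 = 0), decide (e.val k1 + 1 = e.T),
      symCls e.x e.q (e.val k1)⟩) (Testable.zero k0) (fun b => h2 b)
  exact h1

theorem testable_cover (W : C → C → C → C → Prop) (U : Cls → C → Prop)
    (k0 k1 l0 l1 : Fin m) (κ : Option (C × C × C × C)) (c : C) :
    Testable (fun e : Env m => coverRel W U e.x e.T e.q (e.val k0, e.val k1, κ)
      (e.val l0, e.val l1, c)) := by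
  match κ with
  | none =>
    exact (Testable.eq l0 k0).and ((Testable.eq l1 k1).and
      (testable_cls (fun κ => U κ c) k0 k1))
  | some (a, b, a', b') =>
    have h1 : Testable (fun e : Env m => ¬ (e.val k0 + 1 = e.T) ∧ ¬ (e.val k1 + 1 = e.T) ∧
        ¬ W a b a' b') :=
      (Testable.last k0).not.and ((Testable.last k1).not.and (Testable.const (¬ W a b a' b')))
    exact (h1.and (((Testable.eq l0 k0).and ((Testable.eq l1 k1).and (Testable.const (c ≠ a)))).or
      (((Testable.eq l0 k0).and ((Testable.succ l1 k1).and (Testable.const (c ≠ b)))).or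
      (((Testable.succ l0 k0).and ((Testable.eq l1 k1).and (Testable.const (c ≠ a')))).or
      ((Testable.succ l0 k0).and ((Testable.succ l1 k1).and (Testable.const (c ≠ b')))))))).or
      (h1.not.and ((Testable.eq l0 k0).and (Testable.eq l1 k1)))

theorem testable_gRel (W : C → C → C → C → Prop) (U : Cls → C → Prop)
    (k0 k1 k2 k3 l0 l1 l2 l3 : Fin m) (kd kd' : Kd) (κ κ' κ0 : Option (C × C × C × C))
    (c c' c0 : C) :
    Testable (fun e : Env m => gRel (coverRel W U e.x e.T e.q) (0, 0, κ0) (0, 0, c0)
      (kd, (e.val k0, e.val k1, κ), (e.val k2, e.val k3, c))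
      (kd', (e.val l0, e.val l1, κ'), (e.val l2, e.val l3, c'))) := by
  cases kd <;> cases kd' <;> simp only [gRel]
  all_goals first
    | exact Testable.ff
    | exact (testable_eqE _ _ _ _ _ _).and ((testable_eq0 _ _ _ _).and (testable_eq0 _ _ _ _))
    | exact (testable_eqE _ _ _ _ _ _).and ((testable_eq0 _ _ _ _).and
        (testable_cover W U _ _ _ _ _ _))
    | exact (testable_eqE _ _ _ _ _ _).and (testable_eqE _ _ _ _ _ _)
    | exact (testable_eq0 _ _ _ _).and (testable_eqE _ _ _ _ _ _)

theorem testable_aRel (k0 k1 k2 k3 l0 l1 l2 l3 : Fin m) (kd kd' : Kd)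
    (κ κ' κ0 : Option (C × C × C × C)) (c c' : C) :
    Testable (fun e : Env m => aRel (0, 0, κ0)
      (kd, (e.val k0, e.val k1, κ), (e.val k2, e.val k3, c))
      (kd', (e.val l0, e.val l1, κ'), (e.val l2, e.val l3, c'))) := by
  cases kd <;> cases kd' <;> simp only [aRel]
  all_goals first
    | exact Testable.ff
    | exact (testable_eq0 _ _ _ _).and ((testable_eq0 _ _ _ _).and (testable_eqE _ _ _ _ _ _))
    | exact (testable_eqE _ _ _ _ _ _).and (testable_eqE _ _ _ _ _ _)

end testable

end Pool.Agent.Helper79.EdgeAdd
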